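import Pool.Agent.Work.MP_10c1eb_w.Unb

/-!
# Short forms of the definitions

The structures of `Theta.lean` and `Data.lean` in a form which prints briefly, with the theorems about them.
-/

set_option autoImplicit false

open TensorProduct Coalgebra WithConv

namespace Pool.TTriv

universe u v

noncomputable section

/-- A functor from the commutative `k`-algebras to the groups. -/
structure GF (k : Type u) [Field k] where
  obj : (R : Type u) → [CommRing R] → [Algebra k R] → Type u
  grp : (R : Type u) → [CommRing R] → [Algebra k R] → Group (obj R)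
  map : {R S : Type u} → [CommRing R] → [Algebra k R] → [CommRing S] → [Algebra k S] →
    (R →ₐ[k] S) → obj R → obj S
  map_mul : ∀ {R S : Type u} [CommRing R] [Algebra k R] [CommRing S] [Algebra k S] (α : R →ₐ[k] S)
    (a b : obj R), map α (a * b) = map α a * map α b
  map_comp : ∀ {R S T : Type u} [CommRing R] [Algebra k R] [CommRing S] [Algebra k S] [CommRing T]
    [Algebra k T] (α : R →ₐ[k] S) (β : S →ₐ[k] T) (g : obj R), map (β.comp α) g = map β (map α g)

section

variable {k : Type u} [Field k] (G : GF k) {R : Type u} [CommRing R] [Algebra k R]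

/-- The product in the group functor `G`. -/
def GF.mul (a b : G.obj R) : G.obj R := letI := G.grp R; a * b

/-- The inverse in the group functor `G`. -/
def GF.inv (a : G.obj R) : G.obj R := letI := G.grp R; a⁻¹

/-- The unit of the group functor `G`. -/
def GF.one (R : Type u) [CommRing R] [Algebra k R] : G.obj R := letI := G.grp R; 1

end

/-- A homomorphism of group functors. -/
structure GH {k : Type u} [Field k] (G H : GF k) where
  fn : {R : Type u} → [CommRing R] → [Algebra k R] → G.obj R → H.obj R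
  fn_mul : ∀ {R : Type u} [CommRing R] [Algebra k R] (a b : G.obj R),
    fn (G.mul a b) = H.mul (fn a) (fn b)
  fn_map : ∀ {R S : Type u} [CommRing R] [Algebra k R] [CommRing S] [Algebra k S] (α : R →ₐ[k] S)
    (g : G.obj R), fn (G.map α g) = H.map α (fn g)

/-- The multiplicative group. -/
abbrev gmG (k : Type u) [Field k] : GF k where
  obj R _ _ := Rˣ
  grp _ _ _ := inferInstance
  map α c := Units.map (α : _ →* _) c
  map_mul α a b := MonoidHom.map_mul _ a b
  map_comp _ _ _ := rfl

variable (k : Type u) [Field k] [Finite k] (O : Type u) [CommRing O] [HopfAlgebra k O]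

/-- The group functor `P = Spec O`. -/
abbrev ptG : GF k where
  obj R _ _ := Pt k O R
  grp R _ _ := instGroupPt R
  map α x := bc α x
  map_mul α x y := W_bc_mul α x y
  map_comp _ _ _ := rfl

/-- The group functor `P~`, the union of the groups `Φ ^ (-n) P`: a group functor `G` which contains `P`
(`ι`), whose Frobenius `Φ = G(r ↦ r ^ q)` is bijective, and every element of which is mapped into `P` by
some power of `Φ`. -/
structure PT where
  G : GF k
  ι : GH (ptG k O) G
  inj : ∀ {R : Type u} [CommRing R] [Algebra k R] (x y : Pt k O R), ι.fn x = ι.fn y → x = y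
  bij : ∀ (R : Type u) [CommRing R] [Algebra k R] (n : ℕ), Function.Bijective (G.map (frq k R n))
  exh : ∀ {R : Type u} [CommRing R] [Algebra k R] (g : G.obj R), ∃ (n : ℕ) (x : Pt k O R),
    G.map (frq k R n) g = ι.fn x

variable {k O}

/-- `g ∈ N_n = Φ ^ (-n) N`, where `N` is the closed subgroup of `P` with the ideal `J`. -/
def PT.InN (T : PT k O) (J : Ideal O) (n : ℕ) {R : Type u} [CommRing R] [Algebra k R]
    (g : T.G.obj R) : Prop :=
  ∃ x : Pt k O R, Mem J x ∧ T.G.map (frq k R n) g = T.ι.fn x

/-- `E` is a central extension of `G` by the multiplicative group; `E → G` is onto for all `R`. -/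
def IsCentral {k : Type u} [Field k] {E G : GF k} (pr : GH E G) (cen : GH (gmG k) E) : Prop :=
  ∀ (R : Type u) [CommRing R] [Algebra k R],
    (∀ g : G.obj R, ∃ e : E.obj R, pr.fn e = g) ∧
    (∀ c d : Rˣ, cen.fn c = cen.fn d → c = d) ∧
    (∀ (c : Rˣ) (e : E.obj R), E.mul (cen.fn c) e = E.mul e (cen.fn c)) ∧
    (∀ e : E.obj R, pr.fn e = G.one R ↔ ∃ c : Rˣ, cen.fn c = e)

/-- A central extension `E` of `P~` by the multiplicative group (`cen`), with a section `s` over `P`. -/
structure ThetaGroup (T : PT k O) where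
  E : GF k
  pr : GH E T.G
  cen : GH (gmG k) E
  s : GH (ptG k O) E
  central : IsCentral pr cen
  pr_s : ∀ {R : Type u} [CommRing R] [Algebra k R] (x : Pt k O R), pr.fn (s.fn x) = T.ι.fn x

/-- The element `e` of `E` lies over an element of `N_n x`. -/
def ThetaGroup.Over {T : PT k O} (Θ : ThetaGroup T) (J : Ideal O) (n : ℕ) {R : Type u} [CommRing R]
    [Algebra k R] (e : Θ.E.obj R) (x : Pt k O R) : Prop :=
  T.InN J n (Θ.pr.fn (Θ.E.mul e (Θ.E.inv (Θ.s.fn x))))

/-- `ρ` is a homomorphism to the multiplicative group on the inverse image in `E` of the group `N_n P`. -/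
def ThetaGroup.IsHom {T : PT k O} (Θ : ThetaGroup T) (J : Ideal O) (n : ℕ)
    (ρ : (R : Type u) → [CommRing R] → [Algebra k R] → Θ.E.obj R → Rˣ) : Prop :=
  (∀ (R : Type u) [CommRing R] [Algebra k R] (e e' : Θ.E.obj R) (x x' : Pt k O R),
    Θ.Over J n e x → Θ.Over J n e' x' → ρ R (Θ.E.mul e e') = ρ R e * ρ R e') ∧
  (∀ (R S : Type u) [CommRing R] [Algebra k R] [CommRing S] [Algebra k S] (α : R →ₐ[k] S)
    (e : Θ.E.obj R) (x : Pt k O R), Θ.Over J n e x →
      ρ S (Θ.E.map α e) = (gmG k).map α (ρ R e))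

/-- There is a character of weight `m` of the inverse image in `E` of the group `N_n P`, trivial on the
image of `s`. -/
def ThetaGroup.HasChar {T : PT k O} (Θ : ThetaGroup T) (J : Ideal O) (m n : ℕ) : Prop :=
  ∃ ρ : (R : Type u) → [CommRing R] → [Algebra k R] → Θ.E.obj R → Rˣ, Θ.IsHom J n ρ ∧
    ∀ (R : Type u) [CommRing R] [Algebra k R],
      (∀ c : Rˣ, ρ R (Θ.cen.fn c) = c ^ m) ∧ ∀ x : Pt k O R, ρ R (Θ.s.fn x) = 1

/-! ## The old forms -/

/-- The old form. -/
def GF.old {k : Type u} [Field k] (G : GF k) : GFun k where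
  obj R _ _ := G.obj R
  grp R _ _ := G.grp R
  map {R S} _ _ _ _ α := letI := G.grp R; letI := G.grp S
    MonoidHom.mk' (G.map α) (G.map_mul α)
  map_comp α β g := G.map_comp α β g

/-- The old form. -/
def GH.old {k : Type u} [Field k] {G H : GF k} (φ : GH G H) : GHom G.old H.old where
  app R _ _ := letI := G.grp R; letI := H.grp R
    MonoidHom.mk' (φ.fn (R := R)) φ.fn_mul
  nat α g := φ.fn_map α g

/-- The old form. -/
def GH.oldPt {H : GF k} (φ : GH (ptG k O) H) : GHom (ptF k O) H.old where
  app R _ _ := letI := H.grp R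
    MonoidHom.mk' (φ.fn (R := R)) φ.fn_mul
  nat α g := φ.fn_map α g

/-- The old form. -/
def GH.oldGm {k : Type u} [Field k] {H : GF k} (φ : GH (gmG k) H) : GHom (gm k) H.old where
  app R _ _ := letI := H.grp R
    MonoidHom.mk' (φ.fn (R := R)) φ.fn_mul
  nat α g := φ.fn_map α g

/-- The old form. -/
def PT.old (T : PT k O) : Perf k O where
  G := T.G.old
  ι := T.ι.oldPt
  ι_inj _ _ _ x y h := T.inj x y h
  frob_bij R _ _ n := T.bij R n
  exh _ _ _ g := T.exh g

/-- The old form. -/
def ThetaGroup.old {T : PT k O} (Θ : ThetaGroup T) : Central T.old where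
  E := Θ.E.old
  pr := Θ.pr.old
  pr_surj R _ _ := (Θ.central R).1
  cen := Θ.cen.oldGm
  cen_inj R _ _ c d h := (Θ.central R).2.1 c d h
  cen_comm R _ _ c e := (Θ.central R).2.2.1 c e
  exact R _ _ e := (Θ.central R).2.2.2 e
  s := Θ.s.oldPt
  pr_s _ _ _ x := Θ.pr_s x

theorem ThetaGroup.hasChar_old {T : PT k O} (Θ : ThetaGroup T) (J : Ideal O) (m n : ℕ)
    (h : Θ.old.HasChar J m n) : Θ.HasChar J m n := by
  obtain ⟨ρ, ⟨h1, h2⟩, h3⟩ := h
  exact ⟨ρ, ⟨fun R _ _ e e' x x' he he' => h1 R e e' x x' he he',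
    fun R S _ _ _ _ α e x he => h2 R S α e x he⟩, h3⟩

end

end Pool.TTriv
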