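import Pool.Agent.Work.MP_10c1eb_w.Data

/-!
# The final statements, from Theorem G
-/

set_option autoImplicit false

namespace Pool.TTriv

universe u v

/-- A model over some finite field of characteristic `p`. -/
structure FinModel (p : ℕ) where
  k : Type u
  [field : Field k]
  [finite : Finite k]
  [char : CharP k p]
  model : Model p k

attribute [instance] FinModel.field FinModel.finite FinModel.char

/-- The dimension. -/
def FinModel.dim {p : ℕ} (D : FinModel.{u} p) : ℕ := D.model.dim

theorem finModel_dim_zero (hG : TheoremG.{u}) (hINF : G_INF.{u}) (p : ℕ) [Fact p.Prime]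
    (D : FinModel.{u} p) : D.dim = 0 :=
  model_dim_zero hG hINF p D.k D.model

/-- Every variety with trivial tangent bundle in characteristic `p > 3` is an abelian variety. -/
theorem world_abelian (hG : TheoremG.{u}) (hINF : G_INF.{u}) (p : ℕ) [Fact p.Prime] (hp : 3 < p)
    (W : World.{v} p (FinModel.{u} p) FinModel.dim) (X : W.V) : W.IsAbelian X :=
  World.abelian hp (finModel_dim_zero hG hINF p) W X

end Pool.TTriv
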