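import Pool.Agent.Work.MP_10c1eb_g47.Final
import Pool.Agent.Work.MP_10c1eb_w.FinalW

/-!
# The final statements
-/

set_option autoImplicit false

namespace Pool.TTriv

universe u v

theorem theoremG : TheoremG.{u} := fun p _ k O _ _ _ _ _ hp hfg hpf hU J₀ hJ₀ hn =>
  theorem_G p k O hp hfg hpf hU J₀ hJ₀ hn

/-- The model of an actual variety has dimension zero. -/
theorem modelDimZero (p : ℕ) [Fact p.Prime] (k : Type u) [Field k] [Finite k] [CharP k p]
    (X : Model p k) : X.dim = 0 :=
  model_dim_zero theoremG all_INF p k X

/-- Every variety with trivial tangent bundle in characteristic `p > 3` is an abelian variety. -/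
theorem worldAbelian (p : ℕ) [Fact p.Prime] (hp : 3 < p) (W : World.{v} p (FinModel.{u} p) FinModel.dim)
    (X : W.V) : W.IsAbelian X :=
  world_abelian theoremG all_INF p hp W X

end Pool.TTriv
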