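import Mathlib

/-!
# Isocrystals on a variety with trivial tangent bundle have constant slopes
-/

set_option autoImplicit false

namespace Pool.TTriv

universe u

/-- Let `X` be a smooth projective geometrically connected variety over a finite field `k` with `p ^ a`
elements, with trivial tangent bundle.

* `Point` are the points of `X`, the closed ones and the generic one. For a point `x` let `K(x)` be an
  algebraic closure of its residue field and `W(x)` the ring of Witt vectors of `K(x)`.
* `Bun` are the numerically flat vector bundles on `X`, `Hom A B` the homomorphisms of vector bundles,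
  `rk f x` the rank of the linear map between the fibres at `x`. It does not depend on `x`, since kernel
  and cokernel of a homomorphism of numerically flat bundles are numerically flat vector bundles
  (`rk_const`; Langer 2011). `frob n A` is the pull-back of `A` under the `n`-th power of the
  `p ^ a`-Frobenius `F` of `X`.
* `Iso` are the non-zero convergent isocrystals `E` on `X` with an isomorphism `φ : F^* E → E`, `rank` is
  the rank, `slope E x j`, `j < rank E`, are the slopes of the fibre of `E` at `x` in increasing order,
  with multiplicities, and `wedge E i`, `0 < i ≤ rank E`, is the exterior power, whose smallest slope is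
  the sum of the `i` smallest slopes of `E` (`slope_wedge`).
* As `T_X` is trivial, `E` has a lattice `E₀` with numerically flat reduction `lattice E` on `X`: there is
  a lattice with semistable reduction, whose Chern classes are numerically trivial (Esnault-Shiho 2018),
  which is then strongly semistable (Mehta-Ramanathan 1983) and numerically flat (Langer 2011).
* `val E x n` is the largest integer `c` such that `φ ^ n` maps the fibre `(F^(n*) E₀)(x)`, a free module
  over `W(x)`, into `p ^ c E₀(x)`. The difference of `val E x n` and `n` times the smallest slope at `x` is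
  bounded for `n → ∞` (`val_slope`).
* `content E n` is the largest integer `c` such that `φ ^ n` maps `F^(n*) E₀` into `p ^ c E₀`. It is
  equal to `val E x n` for the generic point `x` (`attained`). `red E n` is the reduction modulo `p` of the
  homomorphism `p ^ (-c) φ ^ n` for this `c`. It is not zero at `x` if and only if `val E x n` is `c`
  (`red_rk`). -/
structure Isocrystals where
  Point : Type u
  Bun : Type u
  Hom : Bun → Bun → Type u
  rk : {A B : Bun} → Hom A B → Point → ℕ
  rk_const : ∀ {A B : Bun} (f : Hom A B) (x y : Point), rk f x = rk f y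
  frob : ℕ → Bun → Bun
  Iso : Type u
  rank : Iso → ℕ
  slope : Iso → Point → ℕ → ℚ
  wedge : Iso → ℕ → Iso
  slope_wedge : ∀ (E : Iso) (x : Point) (i : ℕ), 0 < i → i ≤ rank E →
    slope (wedge E i) x 0 = ∑ j ∈ Finset.range i, slope E x j
  lattice : Iso → Bun
  val : Iso → Point → ℕ → ℤ
  val_slope : ∀ (E : Iso) (x : Point), ∃ C : ℚ, ∀ n : ℕ, |(val E x n : ℚ) - n * slope E x 0| ≤ C
  content : Iso → ℕ → ℤ
  attained : ∀ (E : Iso) (n : ℕ), ∃ x : Point, val E x n = content E n
  red : (E : Iso) → (n : ℕ) → Hom (frob n (lattice E)) (lattice E)
  red_rk : ∀ (E : Iso) (n : ℕ) (x : Point), rk (red E n) x ≠ 0 ↔ val E x n = content E n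

/-- All points have the same slopes. -/
def Isocrystals.ConstantSlopes (I : Isocrystals.{u}) : Prop :=
  ∀ (E : I.Iso) (x y : I.Point) (j : ℕ), j < I.rank E → I.slope E x j = I.slope E y j

theorem Isocrystals.val_eq (I : Isocrystals.{u}) (E : I.Iso) (x : I.Point) (n : ℕ) :
    I.val E x n = I.content E n := by
  obtain ⟨z, hz⟩ := I.attained E n
  have h1 := (I.red_rk E n z).2 hz
  rw [I.rk_const (I.red E n) z x] at h1
  exact (I.red_rk E n x).1 h1

theorem Isocrystals.slope_zero (I : Isocrystals.{u}) (E : I.Iso) (x y : I.Point) :
    I.slope E x 0 = I.slope E y 0 := by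
  obtain ⟨C, hC⟩ := I.val_slope E x
  obtain ⟨D, hD⟩ := I.val_slope E y
  by_contra hne
  have hpos : 0 < |I.slope E x 0 - I.slope E y 0| := abs_pos.2 (sub_ne_zero.2 hne)
  obtain ⟨n, hn⟩ := exists_nat_gt ((C + D) / |I.slope E x 0 - I.slope E y 0|)
  rw [div_lt_iff₀ hpos] at hn
  have h1 := hC n
  have h2 := hD n
  rw [I.val_eq] at h1 h2
  have h3 : (n : ℚ) * |I.slope E x 0 - I.slope E y 0| ≤ C + D := by
    have h4 : (n : ℚ) * |I.slope E x 0 - I.slope E y 0| =
        |((I.content E n : ℚ) - n * I.slope E y 0) - ((I.content E n : ℚ) - n * I.slope E x 0)| := by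
      rw [← abs_of_nonneg (Nat.cast_nonneg (α := ℚ) n), ← abs_mul, abs_of_nonneg (Nat.cast_nonneg (α := ℚ) n)]
      congr 1
      ring
    rw [h4]
    refine (abs_sub _ _).trans ?_
    linarith
  linarith

/-- Newton polygons are constant. -/
theorem Isocrystals.constantSlopes (I : Isocrystals.{u}) : I.ConstantSlopes := by
  have key : ∀ (E : I.Iso) (x y : I.Point) (i : ℕ), i ≤ I.rank E →
      ∑ j ∈ Finset.range i, I.slope E x j = ∑ j ∈ Finset.range i, I.slope E y j := by
    intro E x y i hi
    rcases Nat.eq_zero_or_pos i with rfl | h0
    · simp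
    · rw [← I.slope_wedge E x i h0 hi, ← I.slope_wedge E y i h0 hi]
      exact I.slope_zero _ x y
  intro E x y j hj
  have h1 := key E x y (j + 1) hj
  rw [Finset.sum_range_succ, Finset.sum_range_succ, key E x y j hj.le] at h1
  exact add_left_cancel h1

end Pool.TTriv
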