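import Mathlib

/-!
# Varieties with trivial tangent bundle: from the algebraic closure of a finite field to Q1

A variety with trivial tangent bundle means here a smooth projective variety over an algebraically
closed field of characteristic `p` whose tangent bundle is trivial.
-/

set_option autoImplicit false

namespace Pool.TTriv

universe u v

/-- The numbers attached to a variety `X` with trivial tangent bundle and an étale Galois covering
`B → X` with group `Γ` by an abelian variety `B`.

An element of `Γ` acts on `B` by `x ↦ φ x + t`, and `φ` acts trivially on the Lie algebra of `B`
because the tangent bundle of `X` is trivial: its sections pull back to all sections of the tangent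
bundle of `B`. If all `φ` are equal to `1` then `Γ` acts by translations and `X` is an abelian variety
(`translations`). If `φ ≠ 1` for some element then a power `ψ` of `φ` has prime order, and the order is
`p`, since a finite group of automorphisms of `B` of order prime to `p` which fixes `0` and acts
trivially on the tangent space at `0` is trivial. Let `g₁ > 0` be the dimension of the abelian
subvariety `B₁ = (ψ - 1) B`. The ring `ℤ[ζ_p]` acts on `B₁` up to isogeny, `ζ_p` by `ψ`; so the rational
Tate module of `B₁` is a vector space over `ℚ(ζ_p) ⊗ ℚ_ℓ`, free of rank `m` with `2 g₁ = m (p - 1)`, and
the degree of `ψ - 1` on `B₁` is the `m`-th power of the norm `p` of `ζ_p - 1`. Its differential is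
zero, so it factors over the relative Frobenius of `B₁`, of degree `p ^ g₁` (`numbers`). -/
structure AbelianCover (p : ℕ) where
  Γ : Type u
  linearPartTrivial : Γ → Prop
  numbers : ∀ γ, ¬ linearPartTrivial γ →
    ∃ g₁ m : ℕ, 0 < g₁ ∧ 2 * g₁ = m * (p - 1) ∧ p ^ g₁ ∣ p ^ m

/-- In characteristic `p > 3` the group acts by translations. -/
theorem AbelianCover.trivial {p : ℕ} (hp : 3 < p) (c : AbelianCover.{u} p) (γ : c.Γ) :
    c.linearPartTrivial γ := by
  by_contra h
  obtain ⟨g₁, m, h0, h1, h2⟩ := c.numbers γ h
  have h3 : g₁ ≤ m := (Nat.pow_dvd_pow_iff_le_right (by omega)).1 h2
  have h5 : 3 ≤ p - 1 := by omega
  have h6 : m * 3 ≤ m * (p - 1) := Nat.mul_le_mul_left m h5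
  omega

/-- The varieties with trivial tangent bundle over the algebraically closed fields of
characteristic `p`, and facts on them which follow from published theorems.

* `V` is the class of these varieties, `dim` the dimension, `IsAbelian` says that the variety admits the
  structure of an abelian variety. A point is an abelian variety (`point`).
* `Finite'` says that the variety is defined over an algebraic closure of the field with `p` elements.
  `spread`: let `X` be a variety with trivial tangent bundle over an algebraically closed field `k`. It
  is the geometric generic fibre of a smooth projective morphism `𝒳 → S`, with a section and with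
  connected fibres, whose relative tangent bundle is trivial, over a connected scheme `S` of finite type
  over the field with `p` elements. If one geometric fibre over a closed point of `S` is an abelian
  variety, then so is `X` (Mumford, Geometric invariant theory, Theorem 6.14).
* `Cover Y X`: there is a finite étale morphism `Y → X`. `b1` is the first Betti number.
* `albanese`: let `X` be defined over the algebraic closure of the prime field, of dimension `d ≥ 1`, and
  let `Y → X` be a finite étale covering with `b₁(Y) > 0`. Suppose that all varieties with trivial
  tangent bundle over the algebraic closure of the prime field, of dimension less than `d`, are abelian.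
  Then `X` has an étale Galois covering by an abelian variety. Namely: the pull-back of the invariant
  forms under the Albanese map `Y → A` is injective (Igusa 1955), so it identifies them with constant
  combinations of a basis of `Ω¹_Y`, and `Y → A` is smooth and surjective, with connected fibres, which
  have trivial tangent bundle, so they are abelian. So `Y` is a torsor under an abelian scheme `B → A`
  whose Hodge bundle `ω` is trivial; the Hodge bundle of the dual abelian scheme has degree zero on all
  curves too (the degree of `H¹_dR` computed by its two filtrations); by Zarhin's trick and the
  ampleness of the Hodge bundle on the moduli space of principally polarised abelian varieties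
  (Moret-Bailly 1985, Faltings-Chai 1990) the family is isotrivial and it is constant over an étale
  covering of `A`, an abelian variety again. The torsor is projective, so it is torsion (Raynaud, LNM
  119), comes from a torsor under a finite subgroup scheme of the constant fibre, and is trivialised by
  an isogeny onto the base (Nori 1983). So an étale covering of `Y` is a quotient of an abelian variety
  by a finite group scheme of translations, which is an abelian variety; étale coverings of abelian
  varieties are abelian varieties, so one can pass to the Galois closure over `X`.
* `translations`: see `AbelianCover`.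
* `model`: let `X` be defined over the algebraic closure of the prime field, of dimension `d ≥ 1`, with
  `b₁(Y) = 0` for all finite étale coverings `Y → X`. Then `X` is defined over a finite field, with a
  rational point, and the group schemes and facts attached to it in `Data` exist, with dimension `d`. -/
structure World (p : ℕ) (Data : Type v) (dimD : Data → ℕ) where
  V : Type u
  dim : V → ℕ
  IsAbelian : V → Prop
  point : ∀ X, dim X = 0 → IsAbelian X
  Finite' : V → Prop
  spread : ∀ X, ∃ X', Finite' X' ∧ dim X' = dim X ∧ (IsAbelian X' → IsAbelian X)
  Cover : V → V → Prop
  b1 : V → ℕ
  cover : V → AbelianCover.{u} p → Prop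
  albanese : ∀ X Y, Finite' X → Finite' Y → Cover Y X → 0 < dim X → 0 < b1 Y →
    (∀ Z, Finite' Z → dim Z < dim X → IsAbelian Z) → ∃ c, cover X c
  translations : ∀ X c, cover X c → (∀ γ, c.linearPartTrivial γ) → IsAbelian X
  model : ∀ X, Finite' X → 0 < dim X → (∀ Y, Finite' Y → Cover Y X → b1 Y = 0) →
    ∃ D : Data, dimD D = dim X

/-- Q1 for `p > 3` from the vanishing of the dimension of the models. -/
theorem World.abelian {p : ℕ} (hp : 3 < p) {Data : Type v} {dimD : Data → ℕ}
    (hD : ∀ D, dimD D = 0) (W : World.{u} p Data dimD) (X : W.V) : W.IsAbelian X := by
  have key : ∀ n, ∀ X : W.V, W.Finite' X → W.dim X = n → W.IsAbelian X := by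
    intro n
    induction n using Nat.strong_induction_on with
    | _ n ih =>
      intro X hX hn
      rcases Nat.eq_zero_or_pos n with h0 | h0
      · exact W.point X (hn.trans h0)
      · by_cases h : ∀ Y, W.Finite' Y → W.Cover Y X → W.b1 Y = 0
        · obtain ⟨D, hd⟩ := W.model X hX (hn ▸ h0) h
          rw [hD D] at hd
          omega
        · push Not at h
          obtain ⟨Y, hY, hc, hb⟩ := h
          obtain ⟨c, hc'⟩ := W.albanese X Y hX hY hc (hn ▸ h0) (Nat.pos_of_ne_zero hb)
            (fun Z hZ hZd => ih (W.dim Z) (hn ▸ hZd) Z hZ rfl)
          exact W.translations X c hc' (c.trivial hp)
  obtain ⟨X', h1, -, h2⟩ := W.spread X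
  exact h2 (key _ X' h1 rfl)

end Pool.TTriv
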