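import Pool.Agent.Work.MP_10c1eb_w.Short
import Pool.Agent.Work.MP_10c1eb_w.World
import Pool.Agent.Work.MP_10c1eb_w.Isoc
import Pool.Agent.Work.MP_10c1eb_g47.Main
import Pool.Agent.Work.MP_10c1eb_ag_h28.Main

/-!
# Varieties with trivial tangent bundle over a finite field: the data

`k` is a finite field with `q` elements and characteristic `p`, `X` a smooth projective geometrically
connected variety over `k` of dimension `d` with a rational point `x`, whose tangent bundle is trivial,
such that `b₁(Y) = 0` for all finite étale coverings `Y` of `X` over the algebraic closure of `k`.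
-/

set_option autoImplicit false

open TensorProduct Coalgebra WithConv

namespace Pool.TTriv

universe u

noncomputable section

section Predicates

variable (k : Type u) {O : Type u} [Field k] [Finite k] [CommRing O] [HopfAlgebra k O]

/-- The point `h` is equal to `1` on the functions in `V`. If `P = Spec O` is profinite and `V` is
finite-dimensional then these points form a neighbourhood of `1` in `P`, which contains a closed normal
subgroup of finite index. -/
def OneOn (V : Submodule k O) {R : Type u} [CommRing R] [Algebra k R] (h : Pt k O R) : Prop :=
  ∀ a ∈ V, h a = algebraMap k R (counit (R := k) a)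

/-- There is a closed subgroup `P₁` of finite index in `P` such that `y⁻¹ P₁ y` is contained in `P` for
all `y` in `N~`, the union of the groups `Φ ^ (-n) N`; `N` is the closed subgroup of `P` with the ideal
`J`. (Apply `Φ ^ n` to `y⁻¹ h y ∈ P` with `h ∈ P₁` and `y ∈ Φ ^ (-n) N`.) -/
def OpenConj (J : Ideal O) : Prop :=
  ∃ V : Submodule k O, FiniteDimensional k V ∧ ∀ (n : ℕ) (R : Type u) [CommRing R] [Algebra k R]
    (h y : Pt k O R), OneOn k V h → Mem J y → InF n (y⁻¹ * Ph n h * y)

/-- There is a closed subgroup of finite index in `P` which centralises `N~`. -/
def OpenCent (J : Ideal O) : Prop :=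
  ∃ V : Submodule k O, FiniteDimensional k V ∧ ∀ (n : ℕ) (R : Type u) [CommRing R] [Algebra k R]
    (h y : Pt k O R), OneOn k V h → Mem J y → Ph n h * y = y * Ph n h

/-- `x ^ p = 1` implies `x = 1` in the closed subgroup with the ideal `J`. -/
def NoTors (p : ℕ) (J : Ideal O) : Prop :=
  ∀ (R : Type u) [CommRing R] [Algebra k R] (x : Pt k O R), Mem J x → x ^ p = 1 → x = 1

/-- The ideal of the functions `f` with `f ^ p = 0` is finitely generated. -/
def FrobFG (p : ℕ) (O : Type u) [CommRing O] : Prop :=
  ∃ s : Finset O, ∀ f : O, f ^ p = 0 ↔ f ∈ Ideal.span (s : Set O)

end Predicates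

/-- The data attached to `X`, in the situation described at the beginning of this file.

* `dim` is `d`. `O` is the coordinate ring of the fundamental group scheme `P` of Nori of `(X, x)`, the
  Tannaka dual of the category of the essentially finite bundles on `X`; it is profinite (Nori 1982).
  Let `X^ → X` be the universal torsor; `H⁰(X^, 𝒪)` is `k`, and extensions of essentially finite bundles
  by essentially finite bundles are essentially finite (the Galois closure of a tower of torsors under
  finite group schemes; Antei-Biswas-Emsalem-Tonini-Zhang), so that `H¹(X^, 𝒪) = 0`.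
* As `T_X` is trivial the `q`-Frobenius `Φ : X → X` is a composition of torsors under infinitesimal group
  schemes, and `Φ_* 𝒪` is essentially finite (a smooth projective variety with trivial tangent bundle has
  the property that extensions of essentially finite bundles become trivial on a normal projective
  variety; Biswas-dos Santos 2011, Antei-Mehta 2011). So the Frobenius endomorphism of `P` is a closed
  immersion (`perfect`: every function on `P` is a `p`-th power) and its image `Φ P` is of finite index, the
  quotient `P / Φ P` having order `q ^ d` (`torsor`: the ideal of the image of the `p`-Frobenius is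
  finitely generated).
* `P~` (`tilde`) is the union of the groups `Φ ^ (-n) P`; it acts on `X^`, which is perfect, and the
  quotient of `X^` by `Φ ^ (-n) P` is `X` with the projection `X^ → X → X` whose second map is `Φ ^ n`.
  The homogeneous space `P~ / P` is the formal completion of `X` at `x`, and the representation of `P` on
  the functions on its `n`-th infinitesimal neighbourhood belongs to the bundle of principal parts
  `pr₁_* (𝒪_{X × X} / I^(n + 1))`, which is nilpotent because its graded pieces are sums of symmetric
  powers of `Ω¹ = 𝒪 ^ d` (`unipotent`).
* `J₀` is the ideal of the identity component `P⁰` of `P`: a closed normal subgroup, saturated and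
  infinitesimal. If `d > 0` then `P⁰` is not trivial, since `P / Φ P` is infinitesimal of order `q ^ d`
  (`nonTriv`).
* Let `L` be an ample line bundle on `X`, of degree `deg = (L ^ d)`, and `L^` its pull-back to `X^`. The
  points of the group functor `E` (`theta`) are the pairs of an element `g` of `P~` and an isomorphism of
  `g^* L^` with `L^`. As `H¹(X^, 𝒪) = 0` and `P~⁰` is a limit of infinitesimal schemes, every `g` in the
  identity component has such an isomorphism, and the elements of `P` have a natural one (`s`), since
  `L^` is pulled back from `X = X^ / P`; the only automorphisms of `L^` are scalars.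
* `descent`: a character of weight `m` of the inverse image of `N_n P`, `N_n = Φ ^ (-n) N`, which is
  trivial on the image of `s`, defines an action of `N_n P` on the `m`-th power of `L^` which extends that
  of `P`. So `L ^ m` is the pull-back of a line bundle under the finite flat morphism of projective
  varieties `X = X^ / P → X^ / (N_n P)`, whose degree is the order of `N_n / N`. So this order divides
  `(L ^ m) ^ d = m ^ d (L ^ d)`.
* `rigid`: let `N` be a good subgroup which is not trivial and `P₁` a closed subgroup of finite index of `P`
  with `y⁻¹ P₁ y ⊆ P` for all `y` in `N~`. Over the algebraic closure `P₁` contains a subgroup `Q` such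
  that `X^ / Q` is `Y` with the map `Y → Y → X`, a power of Frobenius followed by an étale covering.
  The translations `z ↦ z y` define a family of morphisms `Y → X` parametrised by `N~ / N ⊆ P~ / P`, an
  infinite formal subscheme of the completion of `X` at `x`, that is a formal subscheme of positive
  dimension of the scheme `Hom(Y, X)` at `f`. `X` contains no rational curve (for a non-constant
  `g : ℙ¹ → X`, separable onto its image, the map `𝒪(2) = T → g^* T_X` to a trivial bundle would not be
  zero), so there is a non-constant family of morphisms `Y → X`, parametrised by a smooth projective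
  curve, through `f`; as `b₁(Y) = 0` the class of the pull-back of `L` is constant (`Family`).
* `isoc` is the category of the `F`-isocrystals on `X`, see `Isocrystals`. A theorem about it
  (`Isocrystals.constantSlopes`) is that the slopes of an `F`-isocrystal on `X` are the same at all points.
* `pdivisible`: suppose that the `F`-isocrystals on `X` have constant slopes and let `N` be commutative
  without `p`-torsion. Then `N~ / N` is a `p`-divisible group on which `P` acts, and it defines a
  `p`-divisible group over `X`. Its Dieudonné isocrystal has a filtration by slopes (Katz 1979, Kedlaya)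
  whose pieces become constant over a finite étale covering of the geometric fibre: the unit-root
  `F`-isocrystals correspond to representations of the fundamental group (Crew 1987), their irreducible
  constituents have, after a twist, finite determinant as `b₁(X) = 0`, and companions at all places
  (Abe 2018, Kedlaya 2022), also at those above `p`, where the companions, again `F`-isocrystals on `X`,
  are isoclinic of slope zero; so the eigenvalues of Frobenius are roots of unity of bounded degree and the
  image of the geometric fundamental group is finite. Extensions of constant ones are constant since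
  `b₁(Y) = 0`, and the `p`-divisible group is isogenous to a constant one over `Y` (de Jong 1995). So a
  closed subgroup `H` of finite index in `P` acts trivially on `N~ / N`. For `h ∈ H` the map
  `y ↦ [h, y]` is then a homomorphism from `N~` to `N`; it is trivial, because `y ↦ y ^ p` is bijective on
  `N~` and the intersection of the groups `p ^ n N` is trivial. So `H` centralises `N~`. -/
structure Model (p : ℕ) (k : Type u) [Field k] [Finite k] where
  dim : ℕ
  O : Type u
  [ringO : CommRing O]
  [hopfO : HopfAlgebra k O]
  profinite : Profin k O
  perfect : ∀ f : O, ∃ g : O, g ^ p = f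
  torsor : FrobFG p O
  unipotent : Unip k O
  J₀ : Ideal O
  good : Good k J₀
  nonTriv : dim ≠ 0 → NonTriv k J₀
  tilde : PT k O
  theta : ThetaGroup tilde
  deg : ℕ
  descent : ∀ J : Ideal O, Good k J → ∀ m n : ℕ, m ≠ 0 → theta.HasChar J m n →
    OrdLE k J n (m ^ dim * deg)
  rigid : ∀ J : Ideal O, Good k J → NonTriv k J → OpenConj k J → Nonempty (Family dim)
  isoc : Isocrystals.{u}
  pdivisible : isoc.ConstantSlopes → ∀ J : Ideal O, Good k J → IsComm k J → NoTors k p J →
    OpenCent k J

attribute [instance] Model.ringO Model.hopfO

/-- The statement of Theorem G. -/
def TheoremG : Prop :=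
  ∀ (p : ℕ) [Fact p.Prime] (k O : Type u) [Field k] [Finite k] [CharP k p] [CommRing O]
    [HopfAlgebra k O], (∀ f : O, ∃ g : O, g ^ p = f) → FrobFG p O → Profin k O → Unip k O →
    ∀ J₀ : Ideal O, Good k J₀ → NonTriv k J₀ →
    ∃ J : Ideal O, J₀ ≤ J ∧ Good k J ∧ NonTriv k J ∧
      ((IsComm k J ∧ ∀ (R : Type u) [CommRing R] [Algebra k R] (x : Pt k O R), Mem J x → x ^ p = 1) ∨
        (IsComm k J ∧ NoTors k p J) ∨ OpenComm k J)

theorem W_inF_ph {k : Type u} {O : Type u} [Field k] [Finite k] [CommRing O] [HopfAlgebra k O]
    (n : ℕ) {R : Type u} [CommRing R] [Algebra k R] (x : Pt k O R) : InF n (Ph n x) := by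
  intro f hf
  rw [W_ph_apply, ← map_pow, hf, map_zero]

/-- The model of an actual variety has dimension zero. -/
theorem model_dim_zero (hG : TheoremG.{u}) (hINF : G_INF.{u}) (p : ℕ) [Fact p.Prime] (k : Type u)
    [Field k] [Finite k] [CharP k p] (X : Model p k) : X.dim = 0 := by
  by_contra hd
  have hq := qroot p k X.O X.perfect
  obtain ⟨J, -, hJ, hn, h | ⟨hc, ht⟩ | h⟩ :=
    hG p k X.O X.perfect X.torsor X.profinite X.unipotent X.J₀ X.good (X.nonTriv hd)
  · exact W_thmA p hq X.profinite X.theta.old (p ^ X.dim * X.deg) hJ
      (fun n hn => X.descent J hJ p n (Fact.out : p.Prime).ne_zero (X.theta.hasChar_old J p n hn))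
      h.1 h.2 hn
  · obtain ⟨V, hV, hVc⟩ := X.pdivisible X.isoc.constantSlopes J hJ hc ht
    obtain ⟨F⟩ := X.rigid J hJ hn ⟨V, hV, fun n R _ _ h y hh hy => by
      have h1 := hVc n R h y hh hy
      rw [mul_assoc, h1, inv_mul_cancel_left]
      exact W_inF_ph n h⟩
    exact family_false F
  · obtain ⟨V, hV, hVc⟩ := h
    obtain ⟨F⟩ := X.rigid J hJ hn ⟨V, hV, fun n R _ _ h y hh hy => by
      obtain ⟨-, h2⟩ := hVc n R h y⁻¹ hh (W_mem_inv hJ.hopf hy)
      obtain ⟨-, -, i3, -⟩ := hINF k X.O hq R
      -- `y⁻¹ a y = [a, y⁻¹]⁻¹ a` up to conjugation
      have h3 : y⁻¹ * Ph n h * y = (cm (Ph n h) y⁻¹)⁻¹ * Ph n h := by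
        unfold cm
        group
      rw [h3]
      exact (i3 n _ _ (i3 n _ _ h2 h2).2.2 (W_inF_ph n h)).2.1⟩
    exact family_false F

end

end Pool.TTriv
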