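import Pool.Agent.Work.MP_10c1eb_w.FinalW

set_option autoImplicit false

open Pool.TTriv

universe u v

theorem Pool.Agent.Work.MP_10c1eb_w.Test.result : TheoremG.{u} → G_INF.{u} → 
    ∀ (p : ℕ) [Fact p.Prime], (∀ (k : Type u) [Field k] [Finite k] [CharP k p] (X : Model p k), X.dim = 0) ∧
    (3 < p → ∀ (W : World.{v} p (FinModel.{u} p) FinModel.dim) (X : W.V), W.IsAbelian X) :=
  fun hG hI p _ => ⟨fun k _ _ _ X => model_dim_zero hG hI p k X, fun hp W X => world_abelian hG hI p hp W X⟩
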