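import Pool.Agent.Work.MP_10c1eb_g47.Defs

/-!
# Group functors and theta groups

`k` is a finite field with `q` elements, `P = Spec O` an affine group scheme over `k`.
-/

set_option autoImplicit false

open TensorProduct Coalgebra WithConv

namespace Pool.TTriv

universe u

noncomputable section

/-- A functor from the commutative `k`-algebras to the groups. -/
structure GFun (k : Type u) [Field k] where
  obj : (R : Type u) → [CommRing R] → [Algebra k R] → Type u
  grp : (R : Type u) → [CommRing R] → [Algebra k R] → Group (obj R)
  map : {R S : Type u} → [CommRing R] → [Algebra k R] → [CommRing S] → [Algebra k S] →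
    (R →ₐ[k] S) → obj R →* obj S
  map_comp : ∀ {R S T : Type u} [CommRing R] [Algebra k R] [CommRing S] [Algebra k S] [CommRing T]
    [Algebra k T] (α : R →ₐ[k] S) (β : S →ₐ[k] T) (g : obj R), map (β.comp α) g = map β (map α g)

attribute [instance] GFun.grp

/-- A homomorphism of group functors. -/
structure GHom {k : Type u} [Field k] (G H : GFun k) where
  app : (R : Type u) → [CommRing R] → [Algebra k R] → G.obj R →* H.obj R
  nat : ∀ {R S : Type u} [CommRing R] [Algebra k R] [CommRing S] [Algebra k S] (α : R →ₐ[k] S)
    (g : G.obj R), app S (G.map α g) = H.map α (app R g)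

/-- The multiplicative group. -/
abbrev gm (k : Type u) [Field k] : GFun k where
  obj R _ _ := Rˣ
  grp R _ _ := inferInstance
  map α := Units.map α
  map_comp _ _ _ := rfl

variable (k : Type u) [Field k] [Finite k] (O : Type u) [CommRing O] [HopfAlgebra k O]

/-- The group functor `P = Spec O`. -/
abbrev ptF : GFun k where
  obj R _ _ := Pt k O R
  grp R _ _ := instGroupPt R
  map α :=
    { toFun := bc α
      map_one' := by
        apply WithConv.ofConv_injective
        apply AlgHom.ext
        intro f
        exact α.commutes _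
      map_mul' := fun x y => by
        apply WithConv.ofConv_injective
        exact AlgHom.comp_convMul_distrib α x y }
  map_comp _ _ _ := rfl

/-- The group functor `P~`, the union of the groups `Φ ^ (-n) P`: a group functor `G` which contains `P`
(`ι`), whose Frobenius `Φ = G(r ↦ r ^ q)` is bijective, and every element of which is mapped into `P` by
some power of `Φ`. -/
structure Perf where
  G : GFun k
  ι : GHom (ptF k O) G
  ι_inj : ∀ (R : Type u) [CommRing R] [Algebra k R], Function.Injective (ι.app R)
  frob_bij : ∀ (R : Type u) [CommRing R] [Algebra k R] (n : ℕ),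
    Function.Bijective (G.map (frq k R n))
  exh : ∀ (R : Type u) [CommRing R] [Algebra k R] (g : G.obj R), ∃ (n : ℕ) (x : Pt k O R),
    G.map (frq k R n) g = ι.app R x

variable {k O}

/-- `g ∈ N_n = Φ ^ (-n) N`, where `N` is the closed subgroup of `P` with the ideal `J`. -/
def Perf.InN (G : Perf k O) (J : Ideal O) (n : ℕ) {R : Type u} [CommRing R] [Algebra k R]
    (g : G.G.obj R) : Prop :=
  ∃ x : Pt k O R, Mem J x ∧ G.G.map (frq k R n) g = G.ι.app R x

/-- The functions `f` on `P` with `f (x Φⁿ(y)) = f x` for `x, y ∈ N`. -/
def invN (J : Ideal O) (n : ℕ) : Submodule k O where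
  carrier := {f | ∀ (R : Type u) [CommRing R] [Algebra k R] (x y : Pt k O R), Mem J x → Mem J y →
    (x * Ph n y) f = x f}
  add_mem' := by
    intro a b ha hb R _ _ x y hx hy
    have h1 := ha R x y hx hy
    have h2 := hb R x y hx hy
    exact (map_add (x * Ph n y).ofConv a b).trans ((congrArg₂ (· + ·) h1 h2).trans
      (map_add x.ofConv a b).symm)
  zero_mem' := by
    intro R _ _ x y _ _
    exact (map_zero (x * Ph n y).ofConv).trans (map_zero x.ofConv).symm
  smul_mem' := by
    intro c a ha R _ _ x y hx hy
    have h1 := ha R x y hx hy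
    exact (map_smul (x * Ph n y).ofConv c a).trans ((congrArg (c • ·) h1).trans
      (map_smul x.ofConv c a).symm)

/-- The functions on `N / Φⁿ(N)`, where `N` is the closed subgroup of `P` with the ideal `J`. The
dimension of this space is the order of `N / Φⁿ(N)`, which is the order of `N_n / N`. -/
def funN (J : Ideal O) (n : ℕ) : Submodule k (O ⧸ J) :=
  (invN (k := k) J n).map (Ideal.Quotient.mkₐ k J).toLinearMap

/-- The order of `N_n / N` is at most `D`. -/
def OrdLE (k : Type u) {O : Type u} [Field k] [Finite k] [CommRing O] [HopfAlgebra k O]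
    (J : Ideal O) (n D : ℕ) : Prop :=
  FiniteDimensional k (funN (k := k) J n) ∧ Module.finrank k (funN (k := k) J n) ≤ D

/-- `G` is a quotient of `E`: `pr` is onto for all `R`. -/
structure Quot (G : GFun k) where
  E : GFun k
  pr : GHom E G
  pr_surj : ∀ (R : Type u) [CommRing R] [Algebra k R], Function.Surjective (pr.app R)

/-- A central extension `E` of `G` by the multiplicative group (`cen`). -/
structure CExt (G : GFun k) extends Quot G where
  cen : GHom (gm k) E
  cen_inj : ∀ (R : Type u) [CommRing R] [Algebra k R], Function.Injective (cen.app R)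
  cen_comm : ∀ (R : Type u) [CommRing R] [Algebra k R] (c : Rˣ) (e : E.obj R),
    cen.app R c * e = e * cen.app R c
  exact : ∀ (R : Type u) [CommRing R] [Algebra k R] (e : E.obj R),
    pr.app R e = 1 ↔ ∃ c : Rˣ, cen.app R c = e

/-- A central extension `E` of `P~` by the multiplicative group (`cen`), with a section `s` over `P`. -/
structure Central (G : Perf k O) extends CExt G.G where
  s : GHom (ptF k O) E
  pr_s : ∀ (R : Type u) [CommRing R] [Algebra k R] (x : Pt k O R),
    pr.app R (s.app R x) = G.ι.app R x

/-- The element `e` of `E` lies over an element of `N_n x`. -/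
def Central.Over {G : Perf k O} (Θ : Central G) (J : Ideal O) (n : ℕ) {R : Type u} [CommRing R]
    [Algebra k R] (e : Θ.E.obj R) (x : Pt k O R) : Prop :=
  G.InN J n (Θ.pr.app R (e * (Θ.s.app R x)⁻¹))

/-- `ρ` is a homomorphism to the multiplicative group on the inverse image in `E` of the group `N_n P`. -/
def Central.IsHom {G : Perf k O} (Θ : Central G) (J : Ideal O) (n : ℕ)
    (ρ : (R : Type u) → [CommRing R] → [Algebra k R] → Θ.E.obj R → Rˣ) : Prop :=
  (∀ (R : Type u) [CommRing R] [Algebra k R] (e e' : Θ.E.obj R) (x x' : Pt k O R),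
    Θ.Over J n e x → Θ.Over J n e' x' → ρ R (e * e') = ρ R e * ρ R e') ∧
  (∀ (R S : Type u) [CommRing R] [Algebra k R] [CommRing S] [Algebra k S] (α : R →ₐ[k] S)
    (e : Θ.E.obj R) (x : Pt k O R), Θ.Over J n e x →
      ρ S (Θ.E.map α e) = Units.map (α : R →* S) (ρ R e))

/-- There is a character of weight `m` of the inverse image in `E` of the group `N_n P`, trivial on the
image of `s`. -/
def Central.HasChar {G : Perf k O} (Θ : Central G) (J : Ideal O) (m n : ℕ) : Prop :=
  ∃ ρ : (R : Type u) → [CommRing R] → [Algebra k R] → Θ.E.obj R → Rˣ, Θ.IsHom J n ρ ∧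
    ∀ (R : Type u) [CommRing R] [Algebra k R],
      (∀ c : Rˣ, ρ R (Θ.cen.app R c) = c ^ m) ∧ ∀ x : Pt k O R, ρ R (Θ.s.app R x) = 1

end

end Pool.TTriv
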