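import Pool.Agent.Work.MP_10c1eb_w.Theta

/-!
# Theorem A: a commutative good subgroup of exponent `p` is trivial
-/

set_option autoImplicit false
set_option linter.unusedSectionVars false

open TensorProduct Coalgebra WithConv

namespace Pool.TTriv

universe u

noncomputable section

section Points

variable {k : Type u} [Field k] [Finite k] {O : Type u} [CommRing O] [HopfAlgebra k O]
variable {R S : Type u} [CommRing R] [Algebra k R] [CommRing S] [Algebra k S]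

theorem W_bc_mul (α : R →ₐ[k] S) (x y : Pt k O R) : bc α (x * y) = bc α x * bc α y := by
  apply WithConv.ofConv_injective
  exact AlgHom.comp_convMul_distrib α x y

theorem W_bc_one (α : R →ₐ[k] S) : bc α (1 : Pt k O R) = 1 := by
  apply WithConv.ofConv_injective
  apply AlgHom.ext
  intro f
  change α ((1 : Pt k O R) f) = (1 : Pt k O S) f
  rw [AlgHom.convOne_apply, AlgHom.convOne_apply, AlgHom.commutes]

theorem W_ph_mul (n : ℕ) (x y : Pt k O R) : Ph n (x * y) = Ph n x * Ph n y := W_bc_mul _ x y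

theorem W_bc_inv (α : R →ₐ[k] S) (x : Pt k O R) : bc α x⁻¹ = (bc α x)⁻¹ := by
  apply eq_inv_of_mul_eq_one_left
  rw [← W_bc_mul, inv_mul_cancel, W_bc_one]

theorem W_ph_inv (n : ℕ) (x : Pt k O R) : Ph n x⁻¹ = (Ph n x)⁻¹ := W_bc_inv _ x

theorem W_ph_apply (n : ℕ) (x : Pt k O R) (f : O) : Ph n x f = (x f) ^ (Nat.card k ^ n) :=
  frq_apply k R n (x f)

theorem W_frq_frq (m n : ℕ) (r : R) : frq k R m (frq k R n r) = frq k R (m + n) r := by
  rw [frq_apply, frq_apply, frq_apply, ← pow_mul, pow_add, mul_comm]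

theorem W_frq_comp (m n : ℕ) : (frq k R m).comp (frq k R n) = frq k R (m + n) :=
  AlgHom.ext fun r => W_frq_frq m n r

theorem W_frq_nat (α : R →ₐ[k] S) (n : ℕ) : α.comp (frq k R n) = (frq k S n).comp α := by
  apply AlgHom.ext
  intro r
  change α (frq k R n r) = frq k S n (α r)
  rw [frq_apply, frq_apply, map_pow]

theorem W_bc_comp {T : Type u} [CommRing T] [Algebra k T] (α : R →ₐ[k] S) (β : S →ₐ[k] T)
    (x : Pt k O R) : bc (β.comp α) x = bc β (bc α x) := rfl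

theorem W_ph_ph (m n : ℕ) (x : Pt k O R) : Ph m (Ph n x) = Ph (m + n) x := by
  unfold Ph
  rw [← W_frq_comp, W_bc_comp]

theorem W_bc_ph (α : R →ₐ[k] S) (n : ℕ) (x : Pt k O R) : bc α (Ph n x) = Ph n (bc α x) := by
  unfold Ph
  rw [← W_bc_comp, ← W_bc_comp, W_frq_nat]

variable {J : Ideal O}

theorem W_mem_bc (α : R →ₐ[k] S) {x : Pt k O R} (hx : Mem J x) : Mem J (bc α x) := by
  intro f hf
  change α (x f) = 0
  rw [hx f hf, map_zero]

theorem W_mem_ph (n : ℕ) {x : Pt k O R} (hx : Mem J x) : Mem J (Ph n x) := W_mem_bc _ hx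

theorem W_mem_mul (hJ : J.IsHopfIdeal k) {x y : Pt k O R} (hx : Mem J x) (hy : Mem J y) :
    Mem J (x * y) := by
  intro f hf
  have h1 := ((Submodule.isCoideal_iff_comul_mem (J.restrictScalars k)).1 hJ.toIsCoideal).2 f hf
  rw [AlgHom.convMul_apply]
  rw [Submodule.mem_sup] at h1
  obtain ⟨a, ⟨a', rfl⟩, b, ⟨b', rfl⟩, hab⟩ := h1
  rw [← hab, map_add]
  have h2 : ∀ a' : O ⊗[k] (J.restrictScalars k),
      Algebra.TensorProduct.lift x.ofConv y.ofConv (fun _ _ => Commute.all _ _)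
        ((J.restrictScalars k).subtype.lTensor O a') = 0 := by
    intro a'
    induction a' with
    | zero => simp
    | add u v hu hv => rw [map_add, map_add, hu, hv, add_zero]
    | tmul u v =>
      rw [LinearMap.lTensor_tmul, Algebra.TensorProduct.lift_tmul]
      have : y.ofConv ((J.restrictScalars k).subtype v) = 0 := hy _ v.2
      rw [this, mul_zero]
  have h3 : ∀ a' : (J.restrictScalars k) ⊗[k] O,
      Algebra.TensorProduct.lift x.ofConv y.ofConv (fun _ _ => Commute.all _ _)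
        ((J.restrictScalars k).subtype.rTensor O a') = 0 := by
    intro a'
    induction a' with
    | zero => simp
    | add u v hu hv => rw [map_add, map_add, hu, hv, add_zero]
    | tmul u v =>
      rw [LinearMap.rTensor_tmul, Algebra.TensorProduct.lift_tmul]
      have : x.ofConv ((J.restrictScalars k).subtype u) = 0 := hx _ u.2
      rw [this, zero_mul]
  rw [h2, h3, add_zero]

theorem W_mem_inv (hJ : J.IsHopfIdeal k) {x : Pt k O R} (hx : Mem J x) : Mem J x⁻¹ := by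
  intro f hf
  exact hx _ (hJ.antipode_mem hf)

theorem W_mem_one (hJ : J.IsHopfIdeal k) : Mem J (1 : Pt k O R) := by
  intro f hf
  rw [AlgHom.convOne_apply]
  have h : counit (R := k) f = 0 := hJ.toIsCoideal.counit_eq_zero hf
  rw [h, map_zero]

end Points

section Perf

variable {k : Type u} [Field k] [Finite k] {O : Type u} [CommRing O] [HopfAlgebra k O]
variable {R S : Type u} [CommRing R] [Algebra k R] [CommRing S] [Algebra k S]
variable (G : Perf k O) {J : Ideal O}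

theorem W_map_ι (α : R →ₐ[k] S) (x : Pt k O R) :
    G.G.map α (G.ι.app R x) = G.ι.app S (bc α x) := (G.ι.nat α x).symm

theorem W_inN_ι {x : Pt k O R} (hx : Mem J x) (n : ℕ) : G.InN J n (G.ι.app R x) :=
  ⟨Ph n x, W_mem_ph n hx, W_map_ι G _ x⟩

theorem W_map_frq (m n : ℕ) (g : G.G.obj R) :
    G.G.map (frq k R m) (G.G.map (frq k R n) g) = G.G.map (frq k R (m + n)) g := by
  rw [← G.G.map_comp, W_frq_comp]

theorem W_inN_le {m n : ℕ} (h : m ≤ n) {g : G.G.obj R} (hg : G.InN J m g) : G.InN J n g := by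
  obtain ⟨x, hx, hgx⟩ := hg
  refine ⟨Ph (n - m) x, W_mem_ph _ hx, ?_⟩
  have h1 : n = (n - m) + m := by omega
  conv_lhs => rw [h1]
  rw [← W_map_frq, hgx, W_map_ι G]
  rfl

theorem W_inN_mul (hJ : J.IsHopfIdeal k) {n : ℕ} {g h : G.G.obj R} (hg : G.InN J n g)
    (hh : G.InN J n h) : G.InN J n (g * h) := by
  obtain ⟨x, hx, hgx⟩ := hg
  obtain ⟨y, hy, hhy⟩ := hh
  exact ⟨x * y, W_mem_mul hJ hx hy, by rw [map_mul, hgx, hhy, map_mul]⟩

theorem W_inN_inv (hJ : J.IsHopfIdeal k) {n : ℕ} {g : G.G.obj R} (hg : G.InN J n g) :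
    G.InN J n g⁻¹ := by
  obtain ⟨x, hx, hgx⟩ := hg
  exact ⟨x⁻¹, W_mem_inv hJ hx, by rw [map_inv, hgx, map_inv]⟩

theorem W_inN_map (α : R →ₐ[k] S) {n : ℕ} {g : G.G.obj R} (hg : G.InN J n g) :
    G.InN J n (G.G.map α g) := by
  obtain ⟨x, hx, hgx⟩ := hg
  refine ⟨bc α x, W_mem_bc α hx, ?_⟩
  rw [← G.G.map_comp, ← W_frq_nat, G.G.map_comp, hgx, W_map_ι G]

theorem W_inN_conj (hJ : Good k J) {n : ℕ} {g : G.G.obj R} (x : Pt k O R) (hg : G.InN J n g) :
    G.InN J n (G.ι.app R x * g * (G.ι.app R x)⁻¹) := by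
  obtain ⟨y, hy, hgy⟩ := hg
  refine ⟨Ph n x * y * (Ph n x)⁻¹, hJ.normal R y (Ph n x) hy, ?_⟩
  rw [map_mul, map_mul, hgy, map_inv, W_map_ι G, map_mul, map_mul, map_inv]
  rfl

/-- The inverse image of `g` under Frobenius. -/
theorem W_inN_frob {n : ℕ} {g h : G.G.obj R} (hgh : G.G.map (frq k R 1) h = g) (hg : G.InN J n g) :
    G.InN J (n + 1) h := by
  obtain ⟨x, hx, hgx⟩ := hg
  exact ⟨x, hx, by rw [← W_map_frq, hgh, hgx]⟩

theorem W_inN_comm (hc : IsComm (k := k) J) {n : ℕ} {g h : G.G.obj R} (hg : G.InN J n g)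
    (hh : G.InN J n h) : g * h = h * g := by
  obtain ⟨x, hx, hgx⟩ := hg
  obtain ⟨y, hy, hhy⟩ := hh
  apply (G.frob_bij R n).1
  rw [map_mul, map_mul, hgx, hhy, ← map_mul, ← map_mul, hc R x y hx hy]

theorem W_inN_pow {p : ℕ} (hp : ∀ (R : Type u) [CommRing R] [Algebra k R] (x : Pt k O R),
    Mem J x → x ^ p = 1) {n : ℕ} {g : G.G.obj R} (hg : G.InN J n g) : g ^ p = 1 := by
  obtain ⟨x, hx, hgx⟩ := hg
  apply (G.frob_bij R n).1
  rw [map_pow, hgx, ← map_pow, hp R x hx, map_one, map_one]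

theorem W_ι_mem (hJ : Good k J) {n : ℕ} {x : Pt k O R}
    (hx : G.InN J n (G.ι.app R x)) : Mem J x := by
  obtain ⟨y, hy, hxy⟩ := hx
  rw [W_map_ι G] at hxy
  have h1 : Ph n x = y := G.ι_inj R hxy
  rw [← h1] at hy
  -- saturation
  clear h1 hxy y
  induction n with
  | zero =>
    have : Ph 0 x = x := by
      apply WithConv.ofConv_injective
      apply AlgHom.ext
      intro f
      change Ph 0 x f = x f
      rw [W_ph_apply, pow_zero, pow_one]
    rwa [this] at hy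
  | succ n ih =>
    apply ih
    intro f hf
    obtain ⟨g, hg, hgf⟩ := hJ.sat f hf
    have h2 := hy g hg
    rw [W_ph_apply] at h2 ⊢
    rw [← hgf, map_pow, ← pow_mul, ← pow_succ']
    exact h2

end Perf

section Theta

variable {k : Type u} [Field k] [Finite k] {O : Type u} [CommRing O] [HopfAlgebra k O]
variable {R S : Type u} [CommRing R] [Algebra k R] [CommRing S] [Algebra k S]
variable {G : Perf k O} (Θ : Central G) {J : Ideal O}

theorem W_dvd_card (k : Type u) [Field k] [Finite k] (p : ℕ) [CharP k p] : p ∣ Nat.card k := by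
  let _ := Fintype.ofFinite k
  rw [Nat.card_eq_fintype_card, ← CharP.cast_eq_zero_iff k p]
  exact Nat.cast_card_eq_zero k

theorem W_cen_nat (α : R →ₐ[k] S) (c : Rˣ) :
    Θ.E.map α (Θ.cen.app R c) = Θ.cen.app S (Units.map (α : R →* S) c) := (Θ.cen.nat α c).symm

theorem W_s_nat (α : R →ₐ[k] S) (x : Pt k O R) :
    Θ.E.map α (Θ.s.app R x) = Θ.s.app S (bc α x) := (Θ.s.nat α x).symm

theorem W_pr_nat (α : R →ₐ[k] S) (e : Θ.E.obj R) :
    Θ.pr.app S (Θ.E.map α e) = G.G.map α (Θ.pr.app R e) := Θ.pr.nat α e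

theorem W_cen_one : Θ.cen.app R (1 : Rˣ) = 1 := (Θ.cen.app R).map_one

theorem W_cen_mul (a b : Rˣ) : Θ.cen.app R (a * b) = Θ.cen.app R a * Θ.cen.app R b :=
  (Θ.cen.app R).map_mul a b

theorem W_cen_pow (a : Rˣ) (n : ℕ) : Θ.cen.app R (a ^ n) = Θ.cen.app R a ^ n :=
  (Θ.cen.app R).map_pow a n

theorem W_s_one : Θ.s.app R (1 : Pt k O R) = 1 := (Θ.s.app R).map_one

theorem W_s_mul (a b : Pt k O R) : Θ.s.app R (a * b) = Θ.s.app R a * Θ.s.app R b :=
  (Θ.s.app R).map_mul a b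

theorem W_s_inv (a : Pt k O R) : Θ.s.app R a⁻¹ = (Θ.s.app R a)⁻¹ :=
  (Θ.s.app R).map_inv a

theorem W_s_pow (a : Pt k O R) (n : ℕ) : Θ.s.app R (a ^ n) = Θ.s.app R a ^ n :=
  (Θ.s.app R).map_pow a n

/-- The inverse images of two commuting elements with trivial `p`-th power have commutator a `p`-th root
of unity, which Frobenius kills. -/
theorem W_comm (p : ℕ) [CharP k p] (hc : IsComm (k := k) J)
    (hp : ∀ (R : Type u) [CommRing R] [Algebra k R] (x : Pt k O R), Mem J x → x ^ p = 1) {n : ℕ}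
    {e e' : Θ.E.obj R} (he : G.InN J n (Θ.pr.app R e)) (he' : G.InN J n (Θ.pr.app R e')) :
    e * e' = e' * e := by
  obtain ⟨g, hg⟩ := (G.frob_bij R 1).2 (Θ.pr.app R e)
  obtain ⟨g', hg'⟩ := (G.frob_bij R 1).2 (Θ.pr.app R e')
  have hgN : G.InN J (n + 1) g := W_inN_frob G hg he
  have hgN' : G.InN J (n + 1) g' := W_inN_frob G hg' he'
  obtain ⟨f, hf⟩ := Θ.pr_surj R g
  obtain ⟨f', hf'⟩ := Θ.pr_surj R g'
  have key : ∀ (e f : Θ.E.obj R) (g : G.G.obj R), G.G.map (frq k R 1) g = Θ.pr.app R e →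
      Θ.pr.app R f = g → ∃ c : Rˣ, e = Θ.cen.app R c * Θ.E.map (frq k R 1) f := by
    intro e f g h1 h2
    obtain ⟨c, hc⟩ := (Θ.exact R (e * (Θ.E.map (frq k R 1) f)⁻¹)).1 (by
      rw [map_mul, map_inv, W_pr_nat, h2, h1, mul_inv_cancel])
    exact ⟨c, by rw [hc, inv_mul_cancel_right]⟩
  obtain ⟨c, rfl⟩ := key e f g hg hf
  obtain ⟨c', rfl⟩ := key e' f' g' hg' hf'
  obtain ⟨b, hb⟩ := (Θ.exact R (f * f' * (f' * f)⁻¹)).1 (by
    rw [map_mul, map_inv, map_mul, map_mul, hf, hf', W_inN_comm G hc hgN hgN', mul_inv_cancel])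
  have hb' : f * f' = Θ.cen.app R b * (f' * f) := by rw [hb, inv_mul_cancel_right]
  have hpow : ∀ i : ℕ, f ^ i * f' = Θ.cen.app R (b ^ i) * (f' * f ^ i) := by
    intro i
    induction i with
    | zero => rw [pow_zero, pow_zero, W_cen_one, one_mul, one_mul, mul_one]
    | succ i ih =>
      rw [pow_succ', mul_assoc, ih, ← mul_assoc, ← Θ.cen_comm, mul_assoc, ← mul_assoc f f', hb',
        pow_succ, W_cen_mul]
      simp only [mul_assoc]
  obtain ⟨d, hd⟩ := (Θ.exact R (f ^ p)).1 (by rw [map_pow, hf, W_inN_pow G hp hgN])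
  have hbp : b ^ p = 1 := by
    have h1 := hpow p
    rw [← hd, Θ.cen_comm] at h1
    have h2 : Θ.cen.app R (b ^ p) = 1 := by
      have h3 : Θ.cen.app R (b ^ p) * (f' * Θ.cen.app R d) = 1 * (f' * Θ.cen.app R d) := by
        rw [← h1, one_mul]
      exact mul_right_cancel h3
    apply Θ.cen_inj R
    rw [h2, W_cen_one]
  have hbq : Units.map (frq k R 1 : R →* R) b = 1 := by
    obtain ⟨t, ht⟩ := W_dvd_card k p
    apply Units.ext
    change frq k R 1 (b : R) = 1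
    rw [frq_apply, pow_one, ht, pow_mul, ← Units.val_pow_eq_pow_val, hbp, Units.val_one, one_pow]
  have hcomm : Θ.E.map (frq k R 1) f * Θ.E.map (frq k R 1) f' =
      Θ.E.map (frq k R 1) f' * Θ.E.map (frq k R 1) f := by
    rw [← map_mul, hb', map_mul, W_cen_nat, hbq, W_cen_one, one_mul, map_mul]
  calc Θ.cen.app R c * Θ.E.map (frq k R 1) f * (Θ.cen.app R c' * Θ.E.map (frq k R 1) f')
      = Θ.cen.app R c * (Θ.E.map (frq k R 1) f * Θ.cen.app R c') * Θ.E.map (frq k R 1) f' := by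
        simp only [mul_assoc]
    _ = Θ.cen.app R c * Θ.cen.app R c' * (Θ.E.map (frq k R 1) f * Θ.E.map (frq k R 1) f') := by
        rw [← Θ.cen_comm R c' (Θ.E.map (frq k R 1) f)]
        simp only [mul_assoc]
    _ = Θ.cen.app R c' * Θ.cen.app R c * (Θ.E.map (frq k R 1) f' * Θ.E.map (frq k R 1) f) := by
        rw [hcomm, Θ.cen_comm R c (Θ.cen.app R c')]
    _ = Θ.cen.app R c' * (Θ.cen.app R c * Θ.E.map (frq k R 1) f') * Θ.E.map (frq k R 1) f := by
        simp only [mul_assoc]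
    _ = Θ.cen.app R c' * Θ.E.map (frq k R 1) f' * (Θ.cen.app R c * Θ.E.map (frq k R 1) f) := by
        rw [Θ.cen_comm R c (Θ.E.map (frq k R 1) f')]
        simp only [mul_assoc]

open Classical in
/-- The character `e ↦ (e s(x)⁻¹) ^ p`. -/
def W_rho (J : Ideal O) (p n : ℕ) (R : Type u) [CommRing R] [Algebra k R] (e : Θ.E.obj R) : Rˣ :=
  if h : ∃ c : Rˣ, ∃ x : Pt k O R, Θ.Over J n e x ∧
      Θ.cen.app R c = (e * (Θ.s.app R x)⁻¹) ^ p then Classical.choose h else 1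

theorem W_rho_spec (p : ℕ) [CharP k p] (hJ : Good k J) (hc : IsComm (k := k) J)
    (hp : ∀ (R : Type u) [CommRing R] [Algebra k R] (x : Pt k O R), Mem J x → x ^ p = 1) {n : ℕ}
    {e : Θ.E.obj R} {x : Pt k O R} (h : Θ.Over J n e x) :
    Θ.cen.app R (W_rho Θ J p n R e) = (e * (Θ.s.app R x)⁻¹) ^ p := by
  obtain ⟨c, hcc⟩ := (Θ.exact R ((e * (Θ.s.app R x)⁻¹) ^ p)).1 (by
    rw [map_pow]
    exact W_inN_pow G hp h)
  have hex : ∃ c : Rˣ, ∃ x : Pt k O R, Θ.Over J n e x ∧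
      Θ.cen.app R c = (e * (Θ.s.app R x)⁻¹) ^ p := ⟨c, x, h, hcc⟩
  have h1 : W_rho Θ J p n R e = Classical.choose hex := dif_pos hex
  obtain ⟨x', h2, h3⟩ := Classical.choose_spec hex
  rw [h1, h3]
  have h4 : e * (Θ.s.app R x')⁻¹ = (e * (Θ.s.app R x)⁻¹) * Θ.s.app R (x * x'⁻¹) := by
    rw [W_s_mul, W_s_inv, mul_assoc, inv_mul_cancel_left]
  have h5 : G.InN J n (Θ.pr.app R (Θ.s.app R (x * x'⁻¹))) := by
    have : Θ.pr.app R (Θ.s.app R (x * x'⁻¹)) =
        (Θ.pr.app R (e * (Θ.s.app R x)⁻¹))⁻¹ * Θ.pr.app R (e * (Θ.s.app R x')⁻¹) := by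
      rw [h4, (Θ.pr.app R).map_mul (e * (Θ.s.app R x)⁻¹) (Θ.s.app R (x * x'⁻¹)),
        inv_mul_cancel_left]
    rw [this]
    exact W_inN_mul G hJ.hopf (W_inN_inv G hJ.hopf h) h2
  have h6 : Mem J (x * x'⁻¹) := by
    rw [Θ.pr_s] at h5
    exact W_ι_mem G hJ h5
  have h7 : Commute (e * (Θ.s.app R x)⁻¹) (Θ.s.app R (x * x'⁻¹)) := W_comm Θ p hc hp h h5
  rw [h4, h7.mul_pow, ← W_s_pow, hp R _ h6, W_s_one, mul_one]

theorem W_hasChar (p : ℕ) [CharP k p] (hJ : Good k J) (hc : IsComm (k := k) J)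
    (hp : ∀ (R : Type u) [CommRing R] [Algebra k R] (x : Pt k O R), Mem J x → x ^ p = 1) (n : ℕ) :
    Θ.HasChar J p n := by
  have h1N : ∀ (R : Type u) [CommRing R] [Algebra k R], G.InN J n (1 : G.G.obj R) := by
    intro R _ _
    have := W_inN_ι G (R := R) (W_mem_one (k := k) (R := R) hJ.hopf) n
    rwa [show G.ι.app R (1 : Pt k O R) = 1 from (G.ι.app R).map_one] at this
  refine ⟨W_rho Θ J p n, ⟨?_, ?_⟩, ?_⟩
  · intro R _ _ e e' x x' h h'
    have h1 : e * e' * (Θ.s.app R (x * x'))⁻¹ =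
        (e * (Θ.s.app R x)⁻¹) * (Θ.s.app R x * (e' * (Θ.s.app R x')⁻¹) * (Θ.s.app R x)⁻¹) := by
      rw [W_s_mul]
      group
    have h2 : G.InN J n
        (Θ.pr.app R (Θ.s.app R x * (e' * (Θ.s.app R x')⁻¹) * (Θ.s.app R x)⁻¹)) := by
      have := W_inN_conj G hJ x h'
      rw [(Θ.pr.app R).map_mul (Θ.s.app R x * (e' * (Θ.s.app R x')⁻¹)) ((Θ.s.app R x)⁻¹),
        (Θ.pr.app R).map_mul (Θ.s.app R x) (e' * (Θ.s.app R x')⁻¹), map_inv, Θ.pr_s]
      exact this
    have h3 : Θ.Over J n (e * e') (x * x') := by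
      unfold Central.Over
      rw [h1, (Θ.pr.app R).map_mul (e * (Θ.s.app R x)⁻¹)]
      exact W_inN_mul G hJ.hopf h h2
    apply Θ.cen_inj R
    rw [W_cen_mul, W_rho_spec Θ p hJ hc hp h, W_rho_spec Θ p hJ hc hp h',
      W_rho_spec Θ p hJ hc hp h3, h1]
    have h4 : Commute (e * (Θ.s.app R x)⁻¹)
        (Θ.s.app R x * (e' * (Θ.s.app R x')⁻¹) * (Θ.s.app R x)⁻¹) := W_comm Θ p hc hp h h2
    rw [h4.mul_pow]
    congr 1
    rw [conj_pow, ← W_rho_spec Θ p hJ hc hp h', ← Θ.cen_comm, mul_inv_cancel_right]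
  · intro R S _ _ _ _ α e x h
    have h1 : Θ.Over J n (Θ.E.map α e) (bc α x) := by
      unfold Central.Over
      rw [← W_s_nat, ← map_inv, ← map_mul, W_pr_nat]
      exact W_inN_map G α h
    apply Θ.cen_inj S
    rw [W_rho_spec Θ p hJ hc hp h1, ← W_cen_nat, W_rho_spec Θ p hJ hc hp h, map_pow, map_mul,
      map_inv, W_s_nat]
  · intro R _ _
    refine ⟨?_, ?_⟩
    · intro c
      have h1 : Θ.Over J n (Θ.cen.app R c) (1 : Pt k O R) := by
        unfold Central.Over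
        rw [W_s_one, inv_one, mul_one, (Θ.exact R _).2 ⟨c, rfl⟩]
        exact h1N R
      apply Θ.cen_inj R
      rw [W_rho_spec Θ p hJ hc hp h1, W_s_one, inv_one, mul_one, W_cen_pow]
    · intro x
      have h1 : Θ.Over J n (Θ.s.app R x) x := by
        unfold Central.Over
        rw [mul_inv_cancel, map_one]
        exact h1N R
      apply Θ.cen_inj R
      rw [W_rho_spec Θ p hJ hc hp h1, mul_inv_cancel, one_pow, W_cen_one]

end Theta

end

end Pool.TTriv
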