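import Pool.Agent.Work.MP_10c1eb_w.ThetaA

/-!
# The order of `N / Φⁿ(N)` is unbounded if `N` is not trivial; Theorem A
-/

set_option autoImplicit false
set_option linter.unusedSectionVars false

open TensorProduct Coalgebra WithConv

namespace Pool.TTriv

universe u

noncomputable section

variable {k : Type u} [Field k] [Finite k] {O : Type u} [CommRing O] [HopfAlgebra k O]
variable {J : Ideal O}

theorem W_invN_exists (hP : Profin k O) (hJ : Good k J) (f : O) : ∃ m, f ∈ invN (k := k) J m := by
  obtain ⟨E, hE, hEs, hf⟩ := hP f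
  obtain ⟨s, hs⟩ : (Subalgebra.toSubmodule E).FG := Module.Finite.iff_fg.1 hE
  choose m hm using fun f : O => hJ.inf f
  let M := s.sup m
  -- the linear map `g ↦ frq M (g - ε g)`
  let T : O →ₗ[k] O := (frq k O M).toLinearMap ∘ₗ
    (LinearMap.id - (Algebra.linearMap k O) ∘ₗ (counit (R := k) (A := O)))
  have hTE : ∀ g ∈ E, T g ∈ J := by
    have h1 : Subalgebra.toSubmodule E ≤ (J.restrictScalars k).comap T := by
      rw [← hs, Submodule.span_le]
      intro g hg
      change frq k O M (g - algebraMap k O (counit (R := k) g)) ∈ J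
      rw [frq_apply]
      have h2 : m g ≤ M := Finset.le_sup (f := m) hg
      have h3 : Nat.card k ^ M = Nat.card k ^ m g * Nat.card k ^ (M - m g) := by
        rw [← pow_add]
        congr 1
        omega
      rw [h3, pow_mul]
      have h4 : 0 < Nat.card k ^ (M - m g) := pow_pos Nat.card_pos _
      exact Ideal.pow_mem_of_mem J (hm g) _ h4
    exact fun g hg => h1 hg
  refine ⟨M, ?_⟩
  intro R _ _ x y hx hy
  have h5 : ∀ t ∈ tens (Subalgebra.toSubmodule E) (Subalgebra.toSubmodule E),
      Algebra.TensorProduct.lift x.ofConv (Ph M y).ofConv (fun _ _ => Commute.all _ _) t =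
        Algebra.TensorProduct.lift x.ofConv (1 : Pt k O R).ofConv (fun _ _ => Commute.all _ _) t := by
    have hle : tens (Subalgebra.toSubmodule E) (Subalgebra.toSubmodule E) ≤
        LinearMap.eqLocus
          (Algebra.TensorProduct.lift x.ofConv (Ph M y).ofConv
            (fun _ _ => Commute.all _ _)).toLinearMap
          (Algebra.TensorProduct.lift x.ofConv (1 : Pt k O R).ofConv
            (fun _ _ => Commute.all _ _)).toLinearMap := by
      refine Submodule.map₂_le.2 ?_
      intro a _ b hb
      change Algebra.TensorProduct.lift x.ofConv (Ph M y).ofConv (fun _ _ => Commute.all _ _)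
          (a ⊗ₜ[k] b) = Algebra.TensorProduct.lift x.ofConv (1 : Pt k O R).ofConv
            (fun _ _ => Commute.all _ _) (a ⊗ₜ[k] b)
      rw [Algebra.TensorProduct.lift_tmul, Algebra.TensorProduct.lift_tmul]
      congr 1
      change Ph M y b = (1 : Pt k O R) b
      rw [W_ph_apply, AlgHom.convOne_apply, ← map_pow]
      have h6 := hy _ (hTE b hb)
      change y (frq k O M (b - algebraMap k O (counit (R := k) b))) = 0 at h6
      rw [map_sub, map_sub, sub_eq_zero, frq_apply] at h6
      rw [h6, AlgHom.commutes]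
      exact y.ofConv.commutes _
    exact fun t ht => hle ht
  have h7 := h5 _ (hEs.1 f hf)
  rw [← AlgHom.convMul_apply, ← AlgHom.convMul_apply, mul_one] at h7
  exact h7

theorem W_invN_mono (n : ℕ) : invN (k := k) J n ≤ invN J (n + 1) := by
  intro f hf R _ _ x y hx hy
  rw [← W_ph_ph]
  exact hf R x (Ph 1 y) hx (W_mem_ph 1 hy)

theorem W_unb (hq : ∀ f : O, ∃ g, g ^ Nat.card k = f) (hP : Profin k O) (hJ : Good k J) (D : ℕ)
    (h : ∀ n, OrdLE k J n D) : ¬ NonTriv k J := by
  have hmono : Monotone (funN (k := k) J) := by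
    apply monotone_nat_of_le_succ
    intro n
    exact Submodule.map_mono (W_invN_mono n)
  obtain ⟨n, hn⟩ : ∃ n, ∀ m, Module.finrank k (funN (k := k) J m) ≤
      Module.finrank k (funN (k := k) J n) := by
    by_contra hcon
    push Not at hcon
    have : ∀ N, ∃ n, N ≤ Module.finrank k (funN (k := k) J n) := by
      intro N
      induction N with
      | zero => exact ⟨0, Nat.zero_le _⟩
      | succ N ih =>
        obtain ⟨n, hn⟩ := ih
        obtain ⟨m, hm⟩ := hcon n
        exact ⟨m, by omega⟩
    obtain ⟨n, hn⟩ := this (D + 1)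
    have := (h n).2
    omega
  have htop : funN (k := k) J n = ⊤ := by
    rw [eq_top_iff]
    intro g _
    obtain ⟨f, rfl⟩ := Ideal.Quotient.mk_surjective g
    obtain ⟨m, hm⟩ := W_invN_exists hP hJ f
    have h1 : (Ideal.Quotient.mk J f) ∈ funN (k := k) J (max m n) :=
      hmono (le_max_left m n) ⟨f, hm, rfl⟩
    have h2 : funN (k := k) J n = funN J (max m n) := by
      have := (h (max m n)).1
      exact Submodule.eq_of_le_of_finrank_le (hmono (le_max_right m n)) (hn _)
    rw [h2]
    exact h1
  have hfin : FiniteDimensional k (O ⧸ J) := by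
    have h1 := (h n).1
    rw [htop] at h1
    exact Module.Finite.equiv (Submodule.topEquiv (R := k) (M := O ⧸ J))
  have hsurj : Function.Surjective (frq k (O ⧸ J) 1) := by
    intro g
    obtain ⟨f, rfl⟩ := Ideal.Quotient.mk_surjective g
    obtain ⟨f', rfl⟩ := hq f
    refine ⟨Ideal.Quotient.mk J f', ?_⟩
    rw [frq_apply, pow_one, map_pow]
  have hinj1 : Function.Injective (frq k (O ⧸ J) 1).toLinearMap :=
    LinearMap.injective_iff_surjective.2 hsurj
  have hinj : ∀ m : ℕ, ∀ g : O ⧸ J, frq k (O ⧸ J) m g = 0 → g = 0 := by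
    intro m
    induction m with
    | zero =>
      intro g hg
      rwa [frq_apply, pow_zero, pow_one] at hg
    | succ m ih =>
      intro g hg
      rw [add_comm, ← W_frq_frq] at hg
      apply ih
      apply hinj1
      rw [AlgHom.toLinearMap_apply, hg, map_zero]
  rintro ⟨f, hf0, hf⟩
  obtain ⟨m, hm⟩ := hJ.inf f
  apply hf
  rw [← Ideal.Quotient.eq_zero_iff_mem]
  apply hinj m
  rw [frq_apply, ← map_pow]
  rw [hf0, map_zero, sub_zero] at hm
  exact Ideal.Quotient.eq_zero_iff_mem.2 hm

/-- Theorem A. -/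
theorem W_thmA (p : ℕ) [CharP k p] (hq : ∀ f : O, ∃ g, g ^ Nat.card k = f)
    (hP : Profin k O) {G : Perf k O} (Θ : Central G) (D : ℕ) (hJ : Good k J)
    (hD : ∀ n, Θ.HasChar J p n → OrdLE k J n D)
    (hc : IsComm (k := k) J)
    (hp : ∀ (R : Type u) [CommRing R] [Algebra k R] (x : Pt k O R), Mem J x → x ^ p = 1) :
    ¬ NonTriv k J :=
  W_unb hq hP hJ D (fun n => hD n (W_hasChar Θ p hJ hc hp n))

end

end Pool.TTriv
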